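import Pool.Agent.H28.EA.P2

/-!
# Equivariant Alperin–McKay (MP_657073_al): module CT (counting)
-/

open scoped Classical ComplexConjugate

namespace Pool.Agent.H28.EA

open AMc AMe

section

variable {Γ : Type} [Group Γ] [Fintype Γ]

theorem over_cj {χ θ : Γ → ℂ} (u : Γ) (h : Over χ θ) : Over (cj u χ) (cj u θ) := by
  unfold Over at *
  have : ∑ g : Γ, cj u χ g * starRingEnd ℂ (cj u θ g) = ∑ g : Γ, χ g * starRingEnd ℂ (θ g) := by
    refine Fintype.sum_equiv (MulAut.conj u).toEquiv _ _ (fun g => ?_)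
    simp [cj, MulAut.conj_apply]
  rw [this]; exact h

theorem cj_mem_of_nm (hS7 : T_S7) {N : Subgroup Γ} {u : Γ} (hu : Nm u N) {θ : Γ → ℂ}
    (hθ : θ ∈ IrrS N) : cj u θ ∈ IrrS N :=
  hS7 Γ N N u (fun g => (hu g).symm) θ hθ

/-- double counting -/
theorem dcount {α β : Type} (S : Finset α) (T : Finset β) (r : α → β → Prop)
    [∀ a b, Decidable (r a b)] :
    ∑ a ∈ S, (T.filter (fun b => r a b)).card = ∑ b ∈ T, (S.filter (fun a => r a b)).card :=
  Finset.sum_card_bipartiteAbove_eq_sum_card_bipartiteBelow r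

end

theorem ct (hP0 : T_P0) (hCL : T_CL) (hEX : T_EX) (hS1 : T_S1) (hS7 : T_S7) (hS9 : T_S9) :
    T_CT := by
  intro q hq Γ _ _ Q _ s X K γ m hPI hK hX A hA hAX
  obtain ⟨hKX, -, -, -, -, -⟩ := hP0 q hq Γ Q s X K _ hPI
  obtain ⟨hCa, hCb, hCc, hCd⟩ := hCL q hq Γ Q s X K _ hPI
  have hEX' := hEX q hq Γ Q s X K γ m hPI hK hX
  set t := γ ^ m with ht
  have htX : t ∈ X := hPI.mem
  have hq0 : 0 < q := hq.pos
  obtain ⟨IK, hIK, -⟩ := hS9 Γ K
  obtain ⟨IX, hIX, -⟩ := hS9 Γ X
  -- commutation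
  have hcomm : ∀ i : ℕ, γ * t ^ i = t ^ i * γ := fun i => by
    rw [ht, ← pow_mul]
    exact ((Commute.refl γ).pow_right _).eq
  have hci : ∀ (i : ℕ) (θ : Γ → ℂ), cj (γ * t ^ i) θ = cj γ (cj (t ^ i) θ) := fun i θ => by
    rw [hcomm i, cj_mul]
  obtain ⟨FA, hFAm⟩ : ∃ FA : Finset (Γ → ℂ), ∀ θ, θ ∈ FA ↔ θ ∈ A := by
    refine ⟨IK.filter (fun θ => θ ∈ A), fun θ => ?_⟩
    rw [Finset.mem_filter, hIK]
    exact ⟨fun h => h.2, fun h => ⟨hA θ h, h⟩⟩
  -- translation into finite sets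
  have hset : ∀ (p : (Γ → ℂ) → Prop) [DecidablePred p], {θ | θ ∈ A ∧ p θ}.ncard = (FA.filter p).card := by
    intro p _
    rw [← Set.ncard_coe_finset]
    congr 1
    ext θ
    simp [hFAm]
  set SX : Finset (Γ → ℂ) := IX.filter (fun χ => cj γ χ = χ ∧ ∃ θ ∈ FA, Over χ θ) with hSX
  have hN : {χ | χ ∈ Abv X A ∧ cj γ χ = χ}.ncard = SX.card := by
    rw [← Set.ncard_coe_finset]
    congr 1
    ext χ
    simp only [Abv, Set.mem_ofPred_eq, hSX, Finset.coe_filter, hIX, hFAm]
    tauto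
  rw [hN, hset, Finset.sum_congr rfl fun i _ => hset _]
  set FF := FA.filter (fun θ => cj γ θ = θ) with hFF
  -- the two kinds of characters
  have hinv : ∀ θ ∈ FF, cj t θ = θ := fun θ hθ => by
    rw [hFF, Finset.mem_filter] at hθ
    exact cj_pow_of_fix hθ.2 m
  -- (1)
  have h1 : (SX.filter (fun χ => ∃ θ ∈ FA, Over χ θ ∧ cj t θ = θ)).card = q * FF.card := by
    have e1 := dcount (SX.filter (fun χ => ∃ θ ∈ FA, Over χ θ ∧ cj t θ = θ)) FF
      (fun χ θ => Over χ θ)
    have e2 : ∀ χ ∈ SX.filter (fun χ => ∃ θ ∈ FA, Over χ θ ∧ cj t θ = θ),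
        (FF.filter (fun θ => Over χ θ)).card = 1 := by
      intro χ hχ
      rw [Finset.mem_filter, hSX, Finset.mem_filter, hIX] at hχ
      obtain ⟨⟨hχX, hχγ, -⟩, θ, hθ, hov, hθt⟩ := hχ
      have hθK := hA θ ((hFAm θ).1 hθ)
      obtain ⟨-, -, hc⟩ := hCa θ hθK hθt
      obtain ⟨hres, huniq⟩ := hc χ hχX hov
      have hθγ : cj γ θ = θ := by
        funext g
        by_cases hg : g ∈ K
        · have h3 := congrFun hχγ g
          simp only [cj] at h3 ⊢
          rw [← hres g hg, ← hres _ ((hK g).2 hg), h3]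
        · simp only [cj]
          rw [(hS1 Γ K θ hθK).1 g hg, (hS1 Γ K θ hθK).1 _ (fun h => hg ((hK g).1 h))]
      rw [Finset.card_eq_one]
      refine ⟨θ, ?_⟩
      ext θ'
      rw [Finset.mem_filter, Finset.mem_singleton, hFF, Finset.mem_filter]
      constructor
      · rintro ⟨⟨h4, -⟩, h5⟩
        exact huniq θ' (hA θ' ((hFAm θ').1 h4)) h5
      · rintro rfl
        exact ⟨⟨hθ, hθγ⟩, hov⟩
    have e3 : ∀ θ ∈ FF, ((SX.filter (fun χ => ∃ θ ∈ FA, Over χ θ ∧ cj t θ = θ)).filter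
        (fun χ => Over χ θ)).card = q := by
      intro θ hθ
      have hθt := hinv θ hθ
      rw [hFF, Finset.mem_filter] at hθ
      have hθK := hA θ ((hFAm θ).1 hθ.1)
      obtain ⟨-, hcard, hc⟩ := hCa θ hθK hθt
      rw [← hcard, ← Set.ncard_coe_finset]
      congr 1
      ext χ
      simp only [Finset.coe_filter, Finset.mem_filter, Set.mem_ofPred_eq, hSX, hIX]
      constructor
      · rintro ⟨⟨⟨h4, -⟩, -⟩, h5⟩
        exact ⟨h4, h5⟩
      · rintro ⟨h4, h5⟩
        exact ⟨⟨⟨h4, hEX' χ h4 θ hθK (hc χ h4 h5).1 hθ.2, θ, hθ.1, h5⟩, θ, hθ.1, h5, hθt⟩, h5⟩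
    rw [Finset.sum_congr rfl e2, Finset.sum_congr rfl e3] at e1
    simpa [mul_comm] using e1
  -- (3)
  have h3 : ∀ i ∈ Finset.range q, (FA.filter (fun θ => cj (γ * t ^ i) θ = θ)).card =
      FF.card + (FA.filter (fun θ => cj t θ ≠ θ ∧ cj (γ * t ^ i) θ = θ)).card := by
    intro i _
    rw [← Finset.card_filter_add_card_filter_not (s := FA.filter (fun θ => cj (γ * t ^ i) θ = θ))
      (fun θ => cj t θ = θ)]
    congr 1
    · congr 1
      ext θ
      rw [Finset.mem_filter, Finset.mem_filter, hFF, Finset.mem_filter]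
      constructor
      · rintro ⟨⟨h4, h5⟩, h6⟩
        rw [hci, cj_pow_of_fix h6] at h5
        exact ⟨h4, h5⟩
      · rintro ⟨h4, h5⟩
        have h6 := cj_pow_of_fix h5 m
        exact ⟨⟨h4, by rw [hci, cj_pow_of_fix h6, h5]⟩, h6⟩
    · congr 1
      ext θ
      rw [Finset.mem_filter, Finset.mem_filter, Finset.mem_filter]
      tauto
  -- (2)
  have h2 : q * (SX.filter (fun χ => ¬ ∃ θ ∈ FA, Over χ θ ∧ cj t θ = θ)).card =
      ∑ i ∈ Finset.range q, (FA.filter (fun θ => cj t θ ≠ θ ∧ cj (γ * t ^ i) θ = θ)).card := by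
    set FN := FA.filter (fun θ => cj t θ ≠ θ) with hFN
    set SN := SX.filter (fun χ => ¬ ∃ θ ∈ FA, Over χ θ ∧ cj t θ = θ) with hSN
    have e1 := dcount SN FN (fun χ θ => Over χ θ)
    have e2 : ∀ χ ∈ SN, (FN.filter (fun θ => Over χ θ)).card = q := by
      intro χ hχ
      rw [hSN, Finset.mem_filter, hSX, Finset.mem_filter, hIX] at hχ
      obtain ⟨⟨hχX, hχγ, θ, hθ, hov⟩, hno⟩ := hχ
      have hθK := hA θ ((hFAm θ).1 hθ)
      have hθt : cj t θ ≠ θ := fun h => hno ⟨θ, hθ, hov, h⟩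
      obtain ⟨-, -, -, -, -, hinj⟩ := hCb θ hθK hθt
      rw [← Finset.card_range q]
      symm
      refine Finset.card_bij (fun c _ => cj (t ^ c) θ) ?_ ?_ ?_
      · intro c _
        rw [Finset.mem_filter, hFN, Finset.mem_filter, hFAm]
        refine ⟨⟨hAX θ ((hFAm θ).1 hθ) _ (pow_mem htX c), fun h => hθt ?_⟩,
          hCd χ hχX θ hov _ (pow_mem htX c)⟩
        rw [← cj_mul, ← pow_succ, pow_succ', cj_mul] at h
        exact cj_injective _ h
      · intro c hc c' hc' h
        exact hinj c c' (Finset.mem_range.1 hc) (Finset.mem_range.1 hc') h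
      · intro θ' hθ'
        rw [Finset.mem_filter, hFN, Finset.mem_filter] at hθ'
        obtain ⟨c, hc, hc'⟩ := hCc χ hχX θ hθK θ' (hA θ' ((hFAm θ').1 hθ'.1.1)) hov hθ'.2
        exact ⟨c, Finset.mem_range.2 hc, hc'.symm⟩
    have e3 : ∀ θ ∈ FN, (SN.filter (fun χ => Over χ θ)).card =
        ((Finset.range q).filter (fun i => cj (γ * t ^ i) θ = θ)).card := by
      intro θ hθ
      rw [hFN, Finset.mem_filter] at hθ
      have hθK := hA θ ((hFAm θ).1 hθ.1)
      obtain ⟨χ, hχX, hov, -, huniq, hinj⟩ := hCb θ hθK hθ.2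
      have hγθ : cj γ θ ∈ IrrS K := cj_mem_of_nm hS7 hK hθK
      have hγχ : cj γ χ ∈ IrrS X := cj_mem_of_nm hS7 hX hχX
      have hleft : SN.filter (fun χ => Over χ θ) = if cj γ χ = χ then {χ} else ∅ := by
        ext χ'
        rw [Finset.mem_filter, hSN, Finset.mem_filter, hSX, Finset.mem_filter, hIX]
        split_ifs with h
        · rw [Finset.mem_singleton]
          constructor
          · rintro ⟨⟨⟨h4, -⟩, -⟩, h5⟩
            exact huniq χ' h4 h5
          · rintro rfl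
            refine ⟨⟨⟨hχX, h, θ, hθ.1, hov⟩, ?_⟩, hov⟩
            rintro ⟨θ', hθ', hov', hθ't⟩
            obtain ⟨-, -, hc⟩ := hCa θ' (hA θ' ((hFAm θ').1 hθ')) hθ't
            have := (hc χ' hχX hov').2 θ hθK hov
            rw [this] at hθ
            exact hθ.2 hθ't
        · constructor
          · rintro ⟨⟨⟨h4, h5, -⟩, -⟩, h6⟩
            have := huniq χ' h4 h6
            rw [this] at h5
            exact absurd h5 h
          · intro h4
            exact absurd h4 (Finset.notMem_empty _)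
      have hiff : cj γ χ = χ ↔ ∃ i < q, cj (γ * t ^ i) θ = θ := by
        constructor
        · intro h
          have h4 := over_cj γ hov
          rw [h] at h4
          obtain ⟨c, hc, hc'⟩ := hCc χ hχX _ hγθ θ hθK h4 hov
          exact ⟨c, hc, by rw [cj_mul]; exact hc'.symm⟩
        · rintro ⟨i, hi, hi'⟩
          have h4 := over_cj γ hov
          have h5 := hCd _ hγχ _ h4 (t ^ i) (pow_mem htX i)
          rw [← cj_mul, hi'] at h5
          exact huniq _ hγχ h5
      have hγt : cj t (cj γ θ) ≠ cj γ θ := by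
        intro h
        have h4 := hcomm 1
        rw [pow_one] at h4
        rw [← cj_mul, h4, cj_mul] at h
        exact hθ.2 (cj_injective γ h)
      obtain ⟨-, -, -, -, -, hinj'⟩ := hCb _ hγθ hγt
      rw [hleft]
      split_ifs with h
      · obtain ⟨i, hi, hi'⟩ := hiff.1 h
        rw [Finset.card_singleton]
        symm
        rw [Finset.card_eq_one]
        refine ⟨i, ?_⟩
        ext j
        rw [Finset.mem_filter, Finset.mem_range, Finset.mem_singleton]
        constructor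
        · rintro ⟨hj, hj'⟩
          rw [cj_mul] at hi' hj'
          exact hinj' j i hj hi (hj'.trans hi'.symm)
        · rintro rfl
          exact ⟨hi, hi'⟩
      · rw [Finset.card_empty]
        symm
        rw [Finset.card_eq_zero, Finset.filter_eq_empty_iff]
        intro i hi hi'
        exact h (hiff.2 ⟨i, Finset.mem_range.1 hi, hi'⟩)
    rw [Finset.sum_congr rfl e2, Finset.sum_congr rfl e3, Finset.sum_const, smul_eq_mul] at e1
    rw [mul_comm, e1, dcount FN (Finset.range q) (fun θ i => cj (γ * t ^ i) θ = θ)]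
    refine Finset.sum_congr rfl fun i _ => ?_
    rw [hFN, Finset.filter_filter]
  have hsplit := Finset.card_filter_add_card_filter_not (s := SX)
    (fun χ => ∃ θ ∈ FA, Over χ θ ∧ cj t θ = θ)
  rw [Finset.sum_congr rfl h3, Finset.sum_add_distrib, Finset.sum_const, Finset.card_range,
    smul_eq_mul, ← h2, ← hsplit, h1]
  ring

end Pool.Agent.H28.EA
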