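import Pool.Agent.H28.EA.P2
import Pool.Agent.H25.AM.D4

/-!
# Equivariant Alperin–McKay (MP_657073_al): module DG
-/

open scoped Classical ComplexConjugate

namespace Pool.Agent.H28.EA

open AMc AMe H25.AM

section

variable {Γ : Type} [Group Γ] [Fintype Γ] {F : Type} [Field F]

theorem mem_map_conj {P : Subgroup Γ} {u g : Γ} :
    g ∈ P.map (MulAut.conj u).toMonoidHom ↔ u⁻¹ * g * u ∈ P := by
  constructor
  · rintro ⟨p, hp, rfl⟩
    have : u⁻¹ * ((MulAut.conj u).toMonoidHom p) * u = p := by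
      simp only [MulEquiv.coe_toMonoidHom, MulAut.conj_apply]
      group
    rw [this]
    exact hp
  · intro h
    refine ⟨_, h, ?_⟩
    simp only [MulEquiv.coe_toMonoidHom, MulAut.conj_apply]
    group

theorem map_conj_le {P N : Subgroup Γ} (hP : P ≤ N) {u : Γ} (hu : Nm u N) :
    P.map (MulAut.conj u).toMonoidHom ≤ N := by
  intro g hg
  rw [mem_map_conj] at hg
  have := (hu _).2 (hP hg)
  have e : u * (u⁻¹ * g * u) * u⁻¹ = g := by group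
  rwa [e] at this

theorem nm_inv {u : Γ} {N : Subgroup Γ} (hu : Nm u N) : Nm u⁻¹ N := by
  intro g
  rw [← hu]
  have : u * (u⁻¹ * g * u⁻¹⁻¹) * u⁻¹ = g := by group
  rw [this]

theorem nm_of_mem {u : Γ} {N : Subgroup Γ} (hu : u ∈ N) : Nm u N := by
  intro g
  constructor
  · intro h
    have := N.mul_mem (N.mul_mem (N.inv_mem hu) h) hu
    have e : u⁻¹ * (u * g * u⁻¹) * u = g := by group
    rwa [e] at this
  · intro h
    exact N.mul_mem (N.mul_mem hu h) (N.inv_mem hu)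

theorem image_cls {N : Subgroup Γ} {u : Γ} (hu : Nm u N) (x : Γ) :
    (cls N x).image (fun g => u * g * u⁻¹) = cls N (u * x * u⁻¹) := by
  ext g
  rw [Finset.mem_image, mem_cls]
  constructor
  · rintro ⟨a, ha, rfl⟩
    obtain ⟨v, hv, rfl⟩ := mem_cls.1 ha
    exact ⟨u * v * u⁻¹, (hu v).2 hv, by group⟩
  · rintro ⟨v, hv, rfl⟩
    refine ⟨u⁻¹ * v * u * x * (u⁻¹ * v * u)⁻¹, mem_cls.2 ⟨u⁻¹ * v * u, ?_, rfl⟩, by group⟩
    have := (nm_inv hu v).2 hv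
    rwa [inv_inv] at this

/-- transport of defect groups by an element normalising `N` -/
theorem DefH_nm {ℓ : ℕ} {N : Subgroup Γ} {h k : MonoidAlgebra F Γ → F} {D : Subgroup Γ} {u : Γ}
    (hu : Nm u N) (hk : ∀ x ∈ N, k (csum F (cls N x)) = h (csum F (cls N (u * x * u⁻¹))))
    (hD : DefH ℓ N h D) : DefH ℓ N k (D.map (MulAut.conj u⁻¹).toMonoidHom) := by
  obtain ⟨h1, h2, ⟨x, hx, hx1, hx2, hx3⟩, h4⟩ := hD
  have hle := map_conj_le h2 (nm_inv hu)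
  have hx' : u⁻¹ * x * u⁻¹⁻¹ ∈ N := (nm_inv hu x).2 hx
  have hcc := conj_centralizer N x u⁻¹ (nm_inv hu)
  have hc : D.map (MulAut.conj u⁻¹).toMonoidHom ≤
      Subgroup.centralizer {u⁻¹ * x * u⁻¹⁻¹} ⊓ N := by
    rw [← hcc]
    exact Subgroup.map_mono (le_inf hx2 h2)
  refine ⟨h1.map _, hle, ⟨u⁻¹ * x * u⁻¹⁻¹, hx', ?_, hc.trans inf_le_left, ?_⟩, ?_⟩
  · rw [hk _ hx']
    have e : u * (u⁻¹ * x * u⁻¹⁻¹) * u⁻¹ = x := by group
    rwa [e]
  · rw [relIndex_eq_of_card hc (le_inf hx2 h2) (card_map_conj D u⁻¹)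
      (by rw [← hcc]; exact card_map_conj _ _)]
    exact hx3
  · intro y hy hne
    rw [hk y hy] at hne
    obtain ⟨v, hv, hv'⟩ := h4 _ ((hu y).2 hy) hne
    refine ⟨u⁻¹ * v * u⁻¹⁻¹, (nm_inv hu v).2 hv, fun d hd => ?_⟩
    rw [mem_map_conj] at hd
    have h5 := hv' _ hd
    rw [Subgroup.mem_centralizer_singleton_iff] at h5 ⊢
    have e1 : u⁻¹ * v * u⁻¹⁻¹ * d * (u⁻¹ * v * u⁻¹⁻¹)⁻¹ * y =
        u⁻¹ * (v * (u⁻¹⁻¹ * d * u⁻¹) * v⁻¹ * (u * y * u⁻¹)) * u := by group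
    rw [e1, h5]
    group

/-- a `ℓ`-subgroup of `C` is not larger than a subgroup of index prime to `ℓ` -/
theorem card_le_of_sylow {ℓ : ℕ} [Fact ℓ.Prime] {C A B : Subgroup Γ} (hB : IsPGroup ℓ B)
    (hAC : A ≤ C) (hBC : B ≤ C) (hA' : ¬ ℓ ∣ A.relIndex C) : Nat.card B ≤ Nat.card A := by
  obtain ⟨n, hn⟩ := IsPGroup.iff_card.1 hB
  have e1 : Nat.card A * A.relIndex C = Nat.card C := by
    have := Subgroup.relIndex_mul_relIndex ⊥ A C bot_le hAC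
    rwa [Subgroup.relIndex_bot_left, Subgroup.relIndex_bot_left] at this
  have h1 : Nat.card B ∣ Nat.card A * A.relIndex C := by
    rw [e1]
    exact Subgroup.card_dvd_of_le hBC
  have h2 : Nat.Coprime (Nat.card B) (A.relIndex C) := by
    rw [hn]
    exact Nat.Coprime.pow_left n ((Nat.Prime.coprime_iff_not_dvd Fact.out).2 hA')
  exact Nat.le_of_dvd Nat.card_pos (h2.dvd_of_dvd_mul_right h1)

/-- two defect groups are conjugate -/
theorem DefH_unique {ℓ : ℕ} [Fact ℓ.Prime] {N : Subgroup Γ} {h : MonoidAlgebra F Γ → F}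
    {D E : Subgroup Γ} (hD : DefH ℓ N h D) (hE : DefH ℓ N h E) :
    ∃ v ∈ N, D.map (MulAut.conj v).toMonoidHom = E := by
  obtain ⟨d1, d2, ⟨x, hx, hx1, hx2, hx3⟩, d4⟩ := hD
  obtain ⟨e1, e2, ⟨y, hy, hy1, hy2, hy3⟩, e4⟩ := hE
  obtain ⟨u, hu, hu'⟩ := e4 x hx hx1
  obtain ⟨w, hw, hw'⟩ := d4 y hy hy1
  have hle : ∀ {P : Subgroup Γ} {z v : Γ}, P ≤ N → v ∈ N →
      (∀ d ∈ P, v * d * v⁻¹ ∈ Subgroup.centralizer {z}) →
      P.map (MulAut.conj v).toMonoidHom ≤ Subgroup.centralizer {z} ⊓ N := by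
    intro P z v hP hv hc
    refine le_inf ?_ (map_conj_le hP (nm_of_mem hv))
    intro g hg
    rw [mem_map_conj] at hg
    have := hc _ hg
    have e : v * (v⁻¹ * g * v) * v⁻¹ = g := by group
    rwa [e] at this
  have hE1 := hle e2 hu hu'
  have hD1 := hle d2 hw hw'
  have c1 := card_le_of_sylow (e1.map (MulAut.conj u).toMonoidHom) (le_inf hx2 d2) hE1 hx3
  have c2 := card_le_of_sylow (d1.map (MulAut.conj w).toMonoidHom) (le_inf hy2 e2) hD1 hy3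
  rw [card_map_conj] at c1 c2
  have hcard : Nat.card E = Nat.card D := le_antisymm c1 c2
  have hx3' : ¬ ℓ ∣ (E.map (MulAut.conj u).toMonoidHom).relIndex
      (Subgroup.centralizer {x} ⊓ N) := by
    rw [relIndex_eq_of_card hE1 (le_inf hx2 d2) ((card_map_conj E u).trans hcard) rfl]
    exact hx3
  obtain ⟨c, hc, hc'⟩ := sylow_conj d1 (e1.map (MulAut.conj u).toMonoidHom) (le_inf hx2 d2) hE1
    hx3 hx3'
  refine ⟨u⁻¹ * c, N.mul_mem (N.inv_mem hu) hc.2, ?_⟩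
  ext g
  rw [mem_map_conj]
  have h5 : u * g * u⁻¹ ∈ D.map (MulAut.conj c).toMonoidHom ↔ g ∈ E := by
    rw [hc', mem_map_conj]
    have e : u⁻¹ * (u * g * u⁻¹) * u = g := by group
    rw [e]
  rw [← h5, mem_map_conj]
  have e : (u⁻¹ * c)⁻¹ * g * (u⁻¹ * c) = c⁻¹ * (u * g * u⁻¹) * c := by group
  rw [e]

theorem DefH_congr' {ℓ : ℕ} {N : Subgroup Γ} {h k : MonoidAlgebra F Γ → F} {D : Subgroup Γ}
    (hk : ∀ z ∈ ZA F N N, h z = k z) (hd : DefH ℓ N h D) : DefH ℓ N k D := by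
  obtain ⟨h1, h2, ⟨x, hx, h3, h4, h5⟩, h6⟩ := hd
  refine ⟨h1, h2, ⟨x, hx, ?_, h4, h5⟩, fun x hx hne => h6 x hx ?_⟩
  · rw [← hk _ (csum_cls_mem_self hx)]; exact h3
  · rw [hk _ (csum_cls_mem_self hx)]; exact hne

/-- `lam` of a conjugate character on a class sum -/
theorem lam_cj_cls (hB5 : T_B5) (π : integralClosure ℤ ℂ →+* F) {N : Subgroup Γ} {u : Γ}
    (hu : Nm u N) (χ : Γ → ℂ) (x : Γ) :
    lam π (cj u χ) (csum F (cls N x)) = lam π χ (csum F (cls N (u * x * u⁻¹))) := by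
  rw [hB5 F π Γ, cjA_csum, ← image_cls hu x]
  simp only [inv_inv]

end

theorem dg (hB5 : T_B5) : T_DG := by
  intro F _ π _ ℓ _ _ Γ _ _ N D γ hγ χ _ hD hB
  have h1 : DefH ℓ N (lam π (cj γ χ)) (D.map (MulAut.conj γ⁻¹).toMonoidHom) :=
    DefH_nm hγ (fun x _ => lam_cj_cls hB5 π hγ χ x) hD
  have h2 : DefH ℓ N (lam π χ) (D.map (MulAut.conj γ⁻¹).toMonoidHom) := DefH_congr' hB h1
  obtain ⟨v, hv, hv'⟩ := DefH_unique hD h2
  refine ⟨γ * v * γ⁻¹, (hγ v).2 hv, ?_⟩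
  have e : γ * v * γ⁻¹ * γ = γ * v := by group
  rw [e, Subgroup.mem_normalizer_iff]
  intro g
  have h3 : v * g * v⁻¹ ∈ D.map (MulAut.conj v).toMonoidHom ↔ g ∈ D := by
    rw [mem_map_conj]
    have e : v⁻¹ * (v * g * v⁻¹) * v = g := by group
    rw [e]
  rw [← h3, hv', mem_map_conj]
  have e : γ⁻¹⁻¹ * (v * g * v⁻¹) * γ⁻¹ = γ * v * g * (γ * v)⁻¹ := by group
  rw [e]

end Pool.Agent.H28.EA
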