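import Pool.Agent.H77.EA.Targets

/-!
# Equivariant Alperin–McKay (MP_657073_al): module P2
-/

open scoped Classical ComplexConjugate

namespace Pool.Agent.H28.EA

open AMc AMe

section

variable {Γ : Type} [Group Γ]

theorem cj_mul (u v : Γ) (θ : Γ → ℂ) : cj (u * v) θ = cj v (cj u θ) := by
  funext g
  simp only [cj]
  congr 1
  group

theorem cj_one (θ : Γ → ℂ) : cj 1 θ = θ := by
  funext g
  simp [cj]

theorem cj_pow_of_fix {u : Γ} {θ : Γ → ℂ} (h : cj u θ = θ) (n : ℕ) : cj (u ^ n) θ = θ := by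
  induction n with
  | zero => rw [pow_zero, cj_one]
  | succ n ih => rw [pow_succ, cj_mul, ih, h]

theorem cj_injective (u : Γ) {θ θ' : Γ → ℂ} (h : cj u θ = cj u θ') : θ = θ' := by
  have h1 := congrArg (cj u⁻¹) h
  rwa [← cj_mul, ← cj_mul, mul_inv_cancel, cj_one, cj_one] at h1

theorem nm_mul {u v : Γ} {N : Subgroup Γ} (hu : Nm u N) (hv : Nm v N) : Nm (u * v) N := by
  intro g
  have h1 : u * v * g * (u * v)⁻¹ = u * (v * g * v⁻¹) * u⁻¹ := by group
  rw [h1, hu, hv]

theorem nm_one (N : Subgroup Γ) : Nm (1 : Γ) N := by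
  intro g
  simp

theorem nm_pow {u : Γ} {N : Subgroup Γ} (hu : Nm u N) (n : ℕ) : Nm (u ^ n) N := by
  induction n with
  | zero => rw [pow_zero]; exact nm_one N
  | succ n ih => rw [pow_succ]; exact nm_mul ih hu

theorem dat_pow {Q : Type} [CommGroup Q] {s : Γ →* Q} {K P : Subgroup Γ} {γ : Γ} {n : ℕ}
    (h : Dat s K P γ n) (e : ℕ) : Dat s K P (γ ^ e) (orderOf (s γ ^ e)) := by
  refine ⟨nm_pow h.nm e, h.ker, fun c hc => ?_, by rw [map_pow], h.le, pow_mem h.np e⟩
  rw [map_pow, ← pow_mul] at hc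
  rw [← pow_mul]
  exact h.pow _ hc

end

theorem p2 (hS1 : T_S1) : T_P2 := by
  intro q _ Γ _ _ Q _ _ s K P γ n hD _ i
  set e := 1 + n / q * i with he
  have hγ : γ * (γ ^ (n / q)) ^ i = γ ^ e := by
    rw [he, ← pow_mul, pow_add, pow_one]
  rw [hγ]
  have hn0 : 0 < n := by
    rw [← hD.ord]
    exact orderOf_pos _
  have hord : orderOf (s γ ^ e) = n / Nat.gcd n e := by
    rw [orderOf_pow, hD.ord]
  by_cases hg : Nat.gcd n e = 1
  · right
    intro N hN θ hθ
    obtain ⟨e', k, hek⟩ : ∃ e' k, e * e' = 1 + n * k := by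
      rcases Nat.lt_or_ge 1 n with h1 | h1
      · obtain ⟨e', -, he'⟩ := Nat.exists_mul_mod_eq_one_of_coprime
          (Nat.Coprime.symm (show Nat.Coprime n e from hg)) h1
        refine ⟨e', e * e' / n, ?_⟩
        have := Nat.mod_add_div (e * e') n
        omega
      · have h2 : n = 1 := by omega
        refine ⟨1, n / q * i, ?_⟩
        rw [h2] at he ⊢
        omega
    constructor
    · intro h
      have h1 := cj_pow_of_fix h e'
      have h2 : (γ ^ e) ^ e' = γ ^ (n * k) * γ := by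
        rw [← pow_mul, hek, ← pow_succ, add_comm]
      rw [h2, cj_mul] at h1
      have h3 : γ ^ (n * k) ∈ N := by
        apply hN
        rw [pow_mul, ← hD.ord, pow_orderOf_eq_one, one_pow]
      have h4 : cj (γ ^ (n * k)) θ = θ := by
        funext g
        exact (hS1 Γ N θ hθ).2.1 _ h3 g
      rwa [h4] at h1
    · intro h
      exact cj_pow_of_fix h e
  · left
    refine ⟨orderOf (s γ ^ e), ?_, ?_, dat_pow hD e⟩
    · rw [hord]
      apply Nat.div_lt_self hn0
      have h1 : 0 < Nat.gcd n e := Nat.gcd_pos_of_pos_left _ hn0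
      omega
    · rw [hord]
      exact Nat.div_dvd_of_dvd (Nat.gcd_dvd_left n e)

end Pool.Agent.H28.EA
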