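import Pool.Agent.H28.EA.DG

/-!
# Equivariant Alperin–McKay (MP_657073_al): module ST
(existence, uniqueness and equivariance of the Brauer correspondent; transitivity)
-/

open scoped Classical ComplexConjugate

namespace Pool.Agent.H28.EA

open AMc AMe H25.AM

section

variable {Γ : Type} [Group Γ] [Fintype Γ] {F : Type} [Field F]

theorem map_map_conj (P : Subgroup Γ) (u v : Γ) :
    (P.map (MulAut.conj v).toMonoidHom).map (MulAut.conj u).toMonoidHom =
      P.map (MulAut.conj (u * v)).toMonoidHom := by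
  ext g
  rw [mem_map_conj, mem_map_conj, mem_map_conj]
  have : v⁻¹ * (u⁻¹ * g * u) * v = (u * v)⁻¹ * g * (u * v) := by group
  rw [this]

theorem sd_cls {ℓ : ℕ} [Fact ℓ.Prime] {N D : Subgroup Γ} (hD : IsPGroup ℓ D)
    (hDN : D ≤ N) {x : Γ} (hx : x ∈ N) (hDx : D ≤ Subgroup.centralizer {x})
    (hind : ¬ ℓ ∣ D.relIndex (Subgroup.centralizer {x} ⊓ N)) (g : Γ)
    (hg : (csum F (cls N x)).coeff g ≠ 0) : g ∈ SD ℓ N (conjs N D) := by
  have hgm : g ∈ cls N x := by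
    by_contra h
    rw [coeff_csum, if_neg h] at hg
    exact hg rfl
  obtain ⟨u, hu, rfl⟩ := mem_cls.1 hgm
  refine SD_conj (nm_of_mem hu) ?_ (mem_SD_of_sylow hD hDN hx hDx hind)
  rintro _ ⟨v, hv, rfl⟩
  exact ⟨u * v, N.mul_mem hu hv, map_map_conj D u v⟩

theorem nm_inf {u : Γ} {N M : Subgroup Γ} (h1 : Nm u N) (h2 : Nm u M) : Nm u (N ⊓ M) := by
  intro g
  rw [Subgroup.mem_inf, Subgroup.mem_inf, h1, h2]

theorem nm_centralizer {u : Γ} {P : Subgroup Γ} (hu : u ∈ Subgroup.normalizer (P : Set Γ)) :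
    Nm u (Subgroup.centralizer (P : Set Γ)) := by
  have h1 : ∀ v ∈ Subgroup.normalizer (P : Set Γ), ∀ g ∈ Subgroup.centralizer (P : Set Γ),
      v * g * v⁻¹ ∈ Subgroup.centralizer (P : Set Γ) := by
    intro v hv g hg
    rw [Subgroup.mem_centralizer_iff] at hg ⊢
    intro p hp
    have h2 := (Subgroup.mem_normalizer_iff.1
      ((Subgroup.normalizer (P : Set Γ)).inv_mem hv) p).1 hp
    rw [inv_inv] at h2
    have h3 := hg _ h2
    have e1 : p * (v * g * v⁻¹) = v * (v⁻¹ * p * v * g) * v⁻¹ := by group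
    rw [e1, h3]
    group
  intro g
  constructor
  · intro h
    have := h1 _ ((Subgroup.normalizer (P : Set Γ)).inv_mem hu) _ h
    have e : u⁻¹ * (u * g * u⁻¹) * u⁻¹⁻¹ = g := by group
    rwa [e] at this
  · exact h1 u hu g

theorem br_cjA {u : Γ} {P : Subgroup Γ} (hu : u ∈ Subgroup.normalizer (P : Set Γ))
    (z : MonoidAlgebra F Γ) : br P (cjA u z) = cjA u (br P z) := by
  apply MonoidAlgebra.ext
  ext g
  rw [coeff_br, coeff_cjA, coeff_cjA, coeff_br]
  simp only [nm_centralizer hu g]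

theorem cjA_nm {N : Subgroup Γ} {u : Γ} (hu : Nm u N) {z : MonoidAlgebra F Γ}
    (hz : z ∈ ZA F N N) : cjA u z ∈ ZA F N N :=
  cjA_mem hu (fun g hg => (hu g).2 hg) hz

theorem br_br {P E : Subgroup Γ} (h : P ≤ E) (z : MonoidAlgebra F Γ) :
    br E (br P z) = br E z := by
  apply MonoidAlgebra.ext
  ext g
  rw [coeff_br, coeff_br, coeff_br]
  by_cases hg : g ∈ Subgroup.centralizer (E : Set Γ)
  · have hg' : g ∈ Subgroup.centralizer (P : Set Γ) :=
      Subgroup.centralizer_le (show (P : Set Γ) ⊆ (E : Set Γ) from h) hg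
    rw [if_pos hg, if_pos hg', if_pos hg]
  · rw [if_neg hg, if_neg hg]

end

theorem st (hS7 : T_S7) (hB0 : T_B0) (hB1 : T_B1) (hB3 : T_B3) (hB5 : T_B5)
    (hD1 : T_D1) (hD2 : T_D2) (hD5b : T_D5b) (hD6 : T_D6) (hD7 : T_D7) : T_ST := by
  intro F _ π hπ ℓ _ _ Γ _ _ N P
  haveI : IsAlgClosed F := (hB0 F π hπ).1
  constructor
  · intro χ hχ hDef
    have hC := hB1 F π hπ Γ N χ hχ
    refine ⟨?_, ?_⟩
    · obtain ⟨k, hk, hk'⟩ := hD7 F ℓ Γ N P (lam π χ) hC hDef
      obtain ⟨ψ, hψ, hψ'⟩ := hB3 F π hπ ℓ Γ _ k hk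
      refine ⟨ψ, hψ, fun z hz => ?_⟩
      rw [hk' z hz]
      exact hψ' _ (hD2 F Γ N N P z hz)
    · intro ψ hψ hcor
      have hCψ := hB1 F π hπ Γ _ ψ hψ
      have hDψ := hD5b F ℓ Γ N P (lam π χ) (lam π ψ) hC hDef hCψ hcor
      have huniq : ∀ ψ' ∈ IrrS (N ⊓ Subgroup.normalizer (P : Set Γ)),
          (Cor π N P χ ψ' ↔ Blk π (N ⊓ Subgroup.normalizer (P : Set Γ)) ψ ψ') := by
        intro ψ' hψ'
        constructor
        · intro hcor'
          have hCψ' := hB1 F π hπ Γ _ ψ' hψ'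
          obtain ⟨h1, h2, ⟨x, hx, hx1, hx2, hx3⟩, h4⟩ := hDef
          exact hD6 F ℓ Γ N N P le_rfl (fun u hu g hg => N.mul_mem (N.mul_mem hu hg)
            (N.inv_mem hu)) h1 h2 (lam π ψ') (lam π ψ) hCψ' hCψ
            (fun z hz => (hcor' z hz).symm.trans (hcor z hz))
            ⟨csum F (cls N x), csum_cls_mem_self hx, fun g hg => sd_cls h1 h2 hx hx2 hx3 g hg, by
              rw [← hcor' _ (csum_cls_mem_self hx)]; exact hx1⟩
        · intro hB z hz
          rw [hcor z hz]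
          exact (hB _ (hD2 F Γ N N P z hz)).symm
      refine ⟨hDψ, huniq, fun u hu huN => ?_⟩
      have huN' : Nm u (N ⊓ Subgroup.normalizer (P : Set Γ)) := nm_inf huN (nm_of_mem hu)
      have hu' : u⁻¹ ∈ Subgroup.normalizer (P : Set Γ) :=
        (Subgroup.normalizer (P : Set Γ)).inv_mem hu
      have hcjψ : cj u ψ ∈ IrrS (N ⊓ Subgroup.normalizer (P : Set Γ)) :=
        hS7 Γ _ _ u (fun g => (huN' g).symm) ψ hψ
      have key : ∀ z ∈ ZA F N N, lam π (cj u χ) z = lam π (cj u ψ) (br P z) := by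
        intro z hz
        rw [hB5 F π Γ χ u z, hB5 F π Γ ψ u, ← br_cjA hu',
          hcor _ (cjA_nm (nm_inv huN) hz)]
      constructor
      · intro hB
        refine (huniq _ hcjψ).1 fun z hz => ?_
        rw [← key z hz, hB z hz]
      · intro hB z hz
        rw [key z hz, hB _ (hD2 F Γ N N P z hz), hcor z hz]
  · intro hP hPN ψ hψ
    have hCψ := hB1 F π hπ Γ _ ψ hψ
    have hCh : CHom N (fun z : MonoidAlgebra F Γ => lam π ψ (br P z)) := by
      refine ⟨?_, ?_, ?_, ?_⟩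
      · show lam π ψ (br P 1) = 1
        rw [br_one]
        exact hCψ.map_one
      · intro z hz w hw
        show lam π ψ (br P (z + w)) = _
        rw [br_add]
        exact hCψ.map_add _ (hD2 F Γ N N P z hz) _ (hD2 F Γ N N P w hw)
      · intro z hz w hw
        show lam π ψ (br P (z * w)) = _
        rw [hD1 F ℓ Γ P hP z (ZA_mono le_top hPN hz) w (ZA_mono le_top hPN hw)]
        exact hCψ.map_mul _ (hD2 F Γ N N P z hz) _ (hD2 F Γ N N P w hw)
      · intro c z hz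
        show lam π ψ (br P (c • z)) = _
        rw [br_smul]
        exact hCψ.map_smul c _ (hD2 F Γ N N P z hz)
    obtain ⟨χ, hχ, hχ'⟩ := hB3 F π hπ ℓ Γ N _ hCh
    exact ⟨χ, hχ, fun z hz => (hχ' z hz).symm⟩

theorem tc (hB1 : T_B1) (hD2 : T_D2) (hD5 : T_D5) (hD5b : T_D5b) : T_TC := by
  intro F _ π hπ ℓ _ _ Γ _ _ X P E hPE hE hXE χ _ ξ hξ hcor hDef β hβ hcor'
  have heq : X ⊓ Subgroup.normalizer (P : Set Γ) ⊓ Subgroup.normalizer (E : Set Γ) =
      X ⊓ Subgroup.normalizer (E : Set Γ) := by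
    apply le_antisymm
    · intro g hg
      exact ⟨hg.1.1, hg.2⟩
    · intro g hg
      exact ⟨⟨hg.1, hXE hg⟩, hg.2⟩
  have hc : Cor π X E χ β := by
    intro z hz
    rw [hcor z hz, hcor' _ (hD2 F Γ X X P z hz), br_br hPE]
  refine ⟨heq, hc, ?_⟩
  have hCξ := hB1 F π hπ Γ _ ξ hξ
  have hCβ := hB1 F π hπ Γ _ β hβ
  have h1 := hD5b F ℓ Γ _ E (lam π ξ) (lam π β) hCξ hDef hCβ hcor'
  rw [heq] at h1 hCβ
  have h2 := hD5 F ℓ Γ X E hE (hDef.2.1.trans inf_le_left) (lam π β) hCβ h1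
  exact DefH_congr' (fun z hz => (hc z hz).symm) h2.2

end Pool.Agent.H28.EA
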